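import Mathlib

/-!
Generalized heptagonal numbers are the numbers `r (5 r - 3) / 2`, `r` an integer. Besides `10`, `16`
and `76` also `307` is not a sum of three of them.
-/

set_option autoImplicit false
set_option maxRecDepth 100000

namespace Pool.Agent.Results.MP_dc5ea1_nt.ThreeHundredSeven

theorem two_mul_half (r : ℤ) : 2 * (r * (5 * r - 3) / 2) = r * (5 * r - 3) := by
  apply Int.mul_ediv_cancel'
  rcases Int.even_or_odd' r with ⟨k, h | h⟩
  · exact ⟨k * (5 * r - 3), by rw [h]; ring⟩
  · exact ⟨r * (5 * k + 1), by rw [h]; ring⟩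

theorem half_nonneg (r : ℤ) : 0 ≤ r * (5 * r - 3) / 2 := by
  apply Int.ediv_nonneg _ (by norm_num)
  rcases le_or_gt r 0 with h | h
  · exact mul_nonneg_of_nonpos_of_nonpos h (by omega)
  · exact mul_nonneg (by omega) (by omega)

theorem bound (r : ℤ) (h : r * (5 * r - 3) / 2 ≤ 307) : r ∈ Finset.Icc (-11 : ℤ) 11 := by
  have h1 := two_mul_half r
  rw [Finset.mem_Icc]
  constructor
  · by_contra hc
    push Not at hc
    nlinarith
  · by_contra hc
    push Not at hc
    nlinarith

theorem finite_check : ∀ a ∈ Finset.Icc (-11 : ℤ) 11, ∀ b ∈ Finset.Icc (-11 : ℤ) 11,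
    ∀ c ∈ Finset.Icc (-11 : ℤ) 11,
    (307 : ℤ) ≠ a * (5 * a - 3) / 2 + b * (5 * b - 3) / 2 + c * (5 * c - 3) / 2 := by
  decide +kernel

/-- Some natural number other than `10`, `16` and `76` is not a sum of three generalized heptagonal
numbers (namely `307`). -/
theorem result : ∃ n : ℕ, n ≠ 10 ∧ n ≠ 16 ∧ n ≠ 76 ∧ ∀ a b c : ℤ,
    (n : ℤ) ≠ a * (5 * a - 3) / 2 + b * (5 * b - 3) / 2 + c * (5 * c - 3) / 2 := by
  refine ⟨307, by norm_num, by norm_num, by norm_num, fun a b c h => ?_⟩
  push_cast at h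
  have ha := half_nonneg a
  have hb := half_nonneg b
  have hc := half_nonneg c
  exact finite_check a (bound a (by omega)) b (bound b (by omega)) c (bound c (by omega)) h

end Pool.Agent.Results.MP_dc5ea1_nt.ThreeHundredSeven
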